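import Mathlib
import Pool.Agent.VMX.StmtsC

set_option autoImplicit false

/-! Row ZZG of the squad VMX: the subgroup generated by two independent commuting elements. -/

namespace Pool.Agent.VMX.H95

open Pool.Agent.VMX

/-- the homomorphism `v ↦ γ ^ (v 0) g ^ (v 1)` -/
noncomputable def hom2 {G : Type} [Group G] (γ g : G) (h : Commute γ g) :
    Multiplicative (Fin 2 → ℤ) →* G where
  toFun v := γ ^ (Multiplicative.toAdd v 0) * g ^ (Multiplicative.toAdd v 1)
  map_one' := by simp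
  map_mul' u v := by
    have h1 : Commute (g ^ (Multiplicative.toAdd u 1)) (γ ^ (Multiplicative.toAdd v 0)) :=
      (h.symm.zpow_zpow _ _)
    rw [toAdd_mul, Pi.add_apply, Pi.add_apply, zpow_add, zpow_add]
    calc γ ^ (Multiplicative.toAdd u 0) * γ ^ (Multiplicative.toAdd v 0) *
          (g ^ (Multiplicative.toAdd u 1) * g ^ (Multiplicative.toAdd v 1))
        = γ ^ (Multiplicative.toAdd u 0) * (γ ^ (Multiplicative.toAdd v 0) *
          g ^ (Multiplicative.toAdd u 1)) * g ^ (Multiplicative.toAdd v 1) := by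
          simp only [mul_assoc]
      _ = γ ^ (Multiplicative.toAdd u 0) * (g ^ (Multiplicative.toAdd u 1) *
          γ ^ (Multiplicative.toAdd v 0)) * g ^ (Multiplicative.toAdd v 1) := by rw [h1.eq]
      _ = _ := by simp only [mul_assoc]

theorem zzg_gen {G : Type} [Group G] (Γ : Subgroup G) (g γ : G) (hg : g ∈ Γ) (hγ : γ ∈ Γ)
    (h : γ * g = g * γ) (hi : ∀ P Q : ℤ, γ ^ P * g ^ Q = 1 → P = 0 ∧ Q = 0) :
    ∃ A : Subgroup G, A ≤ Γ ∧ Nonempty (↥A ≃* Multiplicative (Fin 2 → ℤ)) := by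
  have hinj : Function.Injective (hom2 γ g h) := by
    rw [injective_iff_map_eq_one]
    intro v hv
    obtain ⟨h0, h1⟩ := hi _ _ hv
    apply Multiplicative.toAdd.injective
    funext i
    fin_cases i
    · exact h0
    · exact h1
  refine ⟨(hom2 γ g h).range, ?_, ⟨(MonoidHom.ofInjective hinj).symm⟩⟩
  rintro x ⟨v, rfl⟩
  exact Γ.mul_mem (Γ.zpow_mem hγ _) (Γ.zpow_mem hg _)

theorem zzg : ZzgStmt := by
  intro n Γ g γ hg hγ h hi
  exact zzg_gen Γ g γ hg hγ h hi

end Pool.Agent.VMX.H95
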